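import Pool.Agent.helper74.NL.Spec
import Pool.Agent.helper27.MP.TB
import Pool.Agent.helper43.MP.MCV
import Pool.Agent.helper16.MP.TP

/-!
# Project nl: (MP_70a088_an), module RAT: positivity implies invariance of `B` under rotation
-/

set_option autoImplicit false

open Complex Metric Set Filter Topology MeasureTheory MPS Pool.Agent.helper98.ILF

noncomputable section

namespace NLF

theorem RAT_ray {s : Finset ℕ} {β : ℕ → ℂ} (h : ∑ j ∈ s, ‖β j‖ ≤ ‖∑ j ∈ s, β j‖) {i j : ℕ}
    (hi : i ∈ s) (hj : j ∈ s) (hij : i ≠ j) : SameRay ℝ (β i) (β j) := by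
  rw [sameRay_iff_norm_add]
  apply le_antisymm (norm_add_le _ _)
  have hj' : j ∈ s.erase i := Finset.mem_erase.mpr ⟨hij.symm, hj⟩
  have h1 : ∑ l ∈ s, β l = (β i + β j) + ∑ l ∈ (s.erase i).erase j, β l := by
    rw [← Finset.add_sum_erase s β hi, ← Finset.add_sum_erase (s.erase i) β hj']
    ring
  have h2 : ∑ l ∈ s, ‖β l‖ = (‖β i‖ + ‖β j‖) + ∑ l ∈ (s.erase i).erase j, ‖β l‖ := by
    rw [← Finset.add_sum_erase s (fun l => ‖β l‖) hi,
      ← Finset.add_sum_erase (s.erase i) (fun l => ‖β l‖) hj']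
    ring
  rw [h1, h2] at h
  have h3 := norm_add_le (β i + β j) (∑ l ∈ (s.erase i).erase j, β l)
  have h4 := norm_sum_le ((s.erase i).erase j) β
  linarith

theorem RAT_fd {n : ℕ} (hn : 2 ≤ n) (y : ℂ) : om n * fd n (om n * y) = fd n y := by
  unfold fd
  have h1 : om n ^ n = 1 := (TB_prim n hn).pow_eq_one
  have h2 : om n ^ n = om n ^ (n - 1) * om n := by
    rw [← pow_succ, show n - 1 + 1 = n by omega]
  rw [mul_pow]
  calc om n * (↑n * (om n ^ (n - 1) * y ^ (n - 1))) = n * (om n ^ (n - 1) * om n) * y ^ (n - 1) := by ring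
    _ = ↑n * y ^ (n - 1) := by rw [← h2, h1]; ring

/-- the branches at `y` and `om * y` point in the same direction -/
theorem RAT_same {n k : ℕ} [NeZero k] {c : ℂ} {b g : ZMod k → ℂ} (hn : 2 ≤ n) (hb : IsCyc n c b)
    (hD : ∀ z, er n c b g z = 0) {y : ℂ} (hy : y ≠ 0) (hyb : ∀ i, y ^ n + c ≠ b i)
    (h : Df n c b g (y ^ n + c) = 0) :
    SameRay ℝ (BB b g y / fd n y ^ 2) (BB b g (om n * y) / fd n (om n * y) ^ 2) := by
  have hn0 : n ≠ 0 := by omega
  have hz : y ^ n + c - c = y ^ n := by ring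
  have hyn : y ^ n ≠ 0 := pow_ne_zero _ hy
  set y0 := rt n (y ^ n) with hy0
  have h0 : y0 ^ n = y ^ n := MCV_rtpow (by omega) _
  have hy00 : y0 ≠ 0 := by
    intro h1
    rw [h1, zero_pow hn0] at h0
    exact hyn h0.symm
  have hp := TB_prim n hn
  have h1 : (y / y0) ^ n = 1 := by
    rw [div_pow, h0, div_self hyn]
  have : NeZero n := ⟨hn0⟩
  obtain ⟨m, hm, hm1⟩ := hp.eq_pow_of_pow_eq_one h1
  have hym : y = om n ^ m * y0 := by
    rw [hm1]
    field_simp
  unfold Df at h
  rw [hz] at h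
  have hTB := TB n k c b g hn hb y0 hy00 (by
    intro i
    rw [h0]
    exact hyb i)
  rw [h0] at hTB
  have hsum : ∑ j ∈ Finset.range n, ‖BB b g (om n ^ j * y0) / fd n (om n ^ j * y0) ^ 2‖ ≤
      ‖∑ j ∈ Finset.range n, BB b g (om n ^ j * y0) / fd n (om n ^ j * y0) ^ 2‖ := by
    rw [hTB]
    have h2 : ∑ j ∈ Finset.range n, ‖BB b g (om n ^ j * y0) / fd n (om n ^ j * y0) ^ 2‖ =
        ∑ j ∈ Finset.range n, ‖BB b g (om n ^ j * y0)‖ / ‖fd n (om n ^ j * y0)‖ ^ 2 := by
      refine Finset.sum_congr rfl (fun j _ => ?_)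
      rw [norm_div, norm_pow]
    rw [h2]
    linarith
  by_cases hm2 : m + 1 < n
  · have h3 := RAT_ray (β := fun j => BB b g (om n ^ j * y0) / fd n (om n ^ j * y0) ^ 2) hsum
      (i := m) (j := m + 1) (Finset.mem_range.mpr hm) (Finset.mem_range.mpr hm2) (by omega)
    have h4 : om n * y = om n ^ (m + 1) * y0 := by
      rw [hym, pow_succ]
      ring
    rw [h4]
    conv_lhs => rw [hym]
    exact h3
  · have h5 : m + 1 = n := by omega
    have h3 := RAT_ray (β := fun j => BB b g (om n ^ j * y0) / fd n (om n ^ j * y0) ^ 2) hsum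
      (i := m) (j := 0) (Finset.mem_range.mpr hm) (Finset.mem_range.mpr (by omega)) (by omega)
    have h4 : om n * y = om n ^ 0 * y0 := by
      rw [hym, ← mul_assoc, ← pow_succ', h5, hp.pow_eq_one, pow_zero]
    rw [h4]
    conv_lhs => rw [hym]
    exact h3

theorem RAT_real {n k : ℕ} [NeZero k] {c : ℂ} {b g : ZMod k → ℂ} (hn : 2 ≤ n) (hb : IsCyc n c b)
    (hD : ∀ z, er n c b g z = 0) {y : ℂ} (hy : y ≠ 0) (hyb : ∀ i, y ^ n + c ≠ b i)
    (hB : BB b g y ≠ 0) (h : Df n c b g (y ^ n + c) = 0) :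
    (om n ^ 2 * BB b g (om n * y) / BB b g y).im = 0 := by
  have hS := RAT_same hn hb hD hy hyb h
  have hn0 : (n : ℂ) ≠ 0 := Nat.cast_ne_zero.mpr (by omega)
  have hfy : fd n y ≠ 0 := by
    unfold fd
    exact mul_ne_zero hn0 (pow_ne_zero _ hy)
  have hfd := RAT_fd hn y
  have hom : om n ≠ 0 := by
    have := TB_om_ne n hn 1
    rwa [pow_one] at this
  have hfo : fd n (om n * y) ≠ 0 := by
    intro h1
    rw [h1, mul_zero] at hfd
    exact hfy hfd.symm
  rcases hS with h1 | h1 | ⟨r1, r2, hr1, hr2, h1⟩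
  · exact absurd h1 (div_ne_zero hB (pow_ne_zero _ hfy))
  · rw [div_eq_zero_iff] at h1
    rcases h1 with h1 | h1
    · rw [h1]
      simp
    · exact absurd h1 (pow_ne_zero _ hfo)
  · have h2 : om n ^ 2 * BB b g (om n * y) / BB b g y = ((r1 / r2 : ℝ) : ℂ) := by
      rw [Complex.real_smul, Complex.real_smul] at h1
      have hr2' : (r2 : ℂ) ≠ 0 := by
        exact_mod_cast hr2.ne'
      rw [← hfd] at h1
      push_cast
      rw [div_eq_div_iff hB hr2']
      field_simp at h1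
      linear_combination (-1 : ℂ) * h1
    rw [h2]
    exact Complex.ofReal_im _

theorem RAT_diff {k : ℕ} [NeZero k] {b g : ZMod k → ℂ} {y : ℂ} (hy : ∀ i, y ≠ b i) :
    DifferentiableAt ℂ (BB b g) y := by
  unfold BB
  refine DifferentiableAt.fun_sum (fun i _ => ?_)
  have h1 : y - b i ≠ 0 := sub_ne_zero.mpr (hy i)
  have h2 : DifferentiableAt ℂ (fun z : ℂ => z - b i) y := differentiableAt_id.sub_const _
  exact ((differentiableAt_const _).div (h2.pow 2) (pow_ne_zero _ h1)).add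
    ((differentiableAt_const _).div h2 h1)

theorem RAT_diff' {n k : ℕ} [NeZero k] {b g : ZMod k → ℂ} {y : ℂ} (hy : ∀ i, om n * y ≠ b i) :
    DifferentiableAt ℂ (fun y => om n ^ 2 * BB b g (om n * y)) y := by
  have h1 : DifferentiableAt ℂ (fun y : ℂ => om n * y) y := differentiableAt_id.const_mul _
  have h2 : DifferentiableAt ℂ (BB b g) (om n * y) := RAT_diff hy
  exact (DifferentiableAt.comp y h2 h1).const_mul _

theorem RAT_ae {n : ℕ} (hn : 1 ≤ n) (c : ℂ) {P : ℂ → Prop} (h : ∀ᵐ z : ℂ, P z) :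
    ∀ᵐ y : ℂ, P (y ^ n + c) := by
  rw [ae_iff] at h ⊢
  set N := {a : ℂ | ¬ P a} with hN
  have hK := measurableSet_toMeasurable (volume : Measure ℂ) N
  have hK0 : volume (toMeasurable (volume : Measure ℂ) N) = 0 := by
    rw [measure_toMeasurable]
    exact h
  have h1 := MCV n c hn (fun _ => 1) _ measurable_const hK
  rw [Measure.restrict_eq_zero.mpr hK0, lintegral_zero_measure] at h1
  rw [lintegral_const, one_mul, Measure.restrict_apply_univ] at h1
  refine measure_mono_null ?_ h1.symm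
  intro y hy
  exact subset_toMeasurable _ _ hy

theorem RAT : RAT_stmt := by
  intro n k _ c b g hn hb hc hD hDf
  classical
  have hp := TB_prim n hn
  have hom : om n ≠ 0 := by
    have := TB_om_ne n hn 1
    rwa [pow_one] at this
  obtain ⟨hT1, hT2, -⟩ := TP k b g hb.inj
  have hP0 : Ppoly b g ≠ 0 := by
    intro h
    apply hT2 0
    rw [h, Polynomial.eval_zero]
  -- the finite set of exceptional points for the identity theorem
  set T : Set ℂ := range b ∪ (fun y => om n * y) ⁻¹' (range b) with hT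
  have hTfin : T.Finite := by
    refine (finite_range b).union ((finite_range b).preimage ?_)
    intro x _ y _ hxy
    exact mul_left_cancel₀ hom hxy
  have hTc : IsClosed T := hTfin.isClosed
  -- exceptional points for the real quotient
  set S : Set ℂ := T ∪ {0} ∪ {y | (Ppoly b g).eval y = 0} ∪ (fun y => y ^ n + c) ⁻¹' (range b) with hS
  have hroots : {y | (Ppoly b g).eval y = 0}.Finite := by
    refine (Ppoly b g).roots.toFinset.finite_toSet.subset ?_
    intro y hy
    simp only [Finset.mem_coe, Multiset.mem_toFinset]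
    exact (Polynomial.mem_roots hP0).mpr hy
  have hpre : ((fun y : ℂ => y ^ n + c) ⁻¹' (range b)).Finite := by
    have h1 : (fun y : ℂ => y ^ n + c) ⁻¹' (range b) ⊆ ⋃ i, {y : ℂ | y ^ n = b i - c} := by
      rintro y ⟨i, hi⟩
      rw [mem_iUnion]
      exact ⟨i, by simp only [mem_setOf_eq]; rw [hi]; ring⟩
    refine (finite_iUnion (fun i => ?_)).subset h1
    have h2 : (Polynomial.X ^ n - Polynomial.C (b i - c) : Polynomial ℂ) ≠ 0 :=
      Polynomial.X_pow_sub_C_ne_zero (by omega) _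
    refine (Polynomial.X ^ n - Polynomial.C (b i - c) : Polynomial ℂ).roots.toFinset.finite_toSet.subset ?_
    intro y hy
    simp only [Finset.mem_coe, Multiset.mem_toFinset]
    rw [Polynomial.mem_roots h2, Polynomial.IsRoot.def]
    simp only [Polynomial.eval_sub, Polynomial.eval_pow, Polynomial.eval_X, Polynomial.eval_C]
    rw [mem_setOf_eq] at hy
    rw [hy, sub_self]
  have hSfin : S.Finite := ((hTfin.union (finite_singleton _)).union hroots).union hpre
  have hScl : IsClosed S := hSfin.isClosed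
  -- an open set
  have hO : IsOpen {y : ℂ | y ^ n + c ∈ ball (0 : ℂ) 4} :=
    isOpen_ball.preimage (by fun_prop)
  have hO0 : (0 : ℂ) ∈ {y : ℂ | y ^ n + c ∈ ball (0 : ℂ) 4} := by
    simp only [mem_setOf_eq, mem_ball_zero_iff]
    rw [zero_pow (by omega), zero_add]
    linarith
  have hdense : Dense Sᶜ := hSfin.countable.dense_compl ℝ
  obtain ⟨y1, hy1, hy1S⟩ := hdense.inter_open_nonempty _ hO ⟨0, hO0⟩
  have hV0 : IsOpen ({y : ℂ | y ^ n + c ∈ ball (0 : ℂ) 4} ∩ Sᶜ) := hO.inter hScl.isOpen_compl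
  obtain ⟨r, hr, hV⟩ := Metric.isOpen_iff.mp hV0 y1 ⟨hy1, hy1S⟩
  -- properties on the ball
  have hVb : ∀ y ∈ ball y1 r, (∀ i, y ≠ b i) ∧ (∀ i, om n * y ≠ b i) ∧ y ≠ 0 ∧ BB b g y ≠ 0 ∧
      (∀ i, y ^ n + c ≠ b i) ∧ y ^ n + c ∈ ball (0 : ℂ) 4 := by
    intro y hy
    obtain ⟨h1, h2⟩ := hV hy
    simp only [hS, hT, mem_compl_iff, mem_union, mem_preimage, mem_range, mem_singleton_iff,
      mem_setOf_eq, not_or, not_exists] at h2
    obtain ⟨⟨⟨⟨h3, h4⟩, h5⟩, h6⟩, h7⟩ := h2
    have h3' : ∀ i, y ≠ b i := fun i h => h3 i h.symm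
    refine ⟨h3', fun i h => h4 i h.symm, h5, ?_, fun i h => h7 i h.symm, h1⟩
    intro h8
    apply h6
    rw [← hT1 y h3', h8, zero_mul]
  set q : ℂ → ℂ := fun y => om n ^ 2 * BB b g (om n * y) / BB b g y with hq
  have hqd : DifferentiableOn ℂ q (ball y1 r) := by
    intro y hy
    obtain ⟨h1, h2, -, h4, -, -⟩ := hVb y hy
    exact ((RAT_diff' h2).div (RAT_diff h1) h4).differentiableWithinAt
  have hae : ∀ᵐ y : ℂ, y ∈ ball y1 r → (q y).im = 0 := by
    filter_upwards [RAT_ae (by omega : 1 ≤ n) c hDf] with y hy hyV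
    obtain ⟨-, -, h3, h4, h5, h6⟩ := hVb y hyV
    exact RAT_real hn hb hD h3 h5 h4 (hy h6)
  have hreal : ∀ y ∈ ball y1 r, (q y).im = 0 := by
    have hU : IsOpen (ball y1 r ∩ (fun y => (q y).im) ⁻¹' {0}ᶜ) := by
      refine ContinuousOn.isOpen_inter_preimage ?_ isOpen_ball isOpen_compl_singleton
      exact Complex.continuous_im.comp_continuousOn hqd.continuousOn
    have hU0 : volume (ball y1 r ∩ (fun y => (q y).im) ⁻¹' {0}ᶜ) = 0 := by
      rw [ae_iff] at hae
      refine measure_mono_null ?_ hae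
      rintro y ⟨h1, h2⟩
      simp only [mem_setOf_eq, not_forall]
      exact ⟨h1, h2⟩
    have hU0 := (IsOpen.measure_eq_zero_iff (volume : Measure ℂ) hU).mp hU0
    intro y hy
    by_contra h
    have : y ∈ ball y1 r ∩ (fun y => (q y).im) ⁻¹' {0}ᶜ := ⟨hy, h⟩
    rw [hU0] at this
    exact this
  have hqa : AnalyticOnNhd ℂ q (ball y1 r) := hqd.analyticOnNhd isOpen_ball
  have hconst : ∃ κ, ∀ y ∈ ball y1 r, q y = κ := by
    rcases hqa.is_constant_or_isOpen (convex_ball y1 r).isPreconnected with h | h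
    · exact h
    · exfalso
      have h1 := h _ Subset.rfl isOpen_ball
      have h2 : q y1 ∈ q '' ball y1 r := mem_image_of_mem _ (mem_ball_self hr)
      obtain ⟨ε, hε, h3⟩ := Metric.isOpen_iff.mp h1 _ h2
      have h4 : q y1 + ((ε / 2 : ℝ) : ℂ) * Complex.I ∈ ball (q y1) ε := by
        rw [mem_ball, dist_eq_norm]
        simp only [add_sub_cancel_left, norm_mul, Complex.norm_I, mul_one, Complex.norm_real,
          Real.norm_eq_abs]
        rw [abs_of_pos (by linarith)]
        linarith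
      obtain ⟨y2, hy2, h5⟩ := h3 h4
      have h6 := hreal y2 hy2
      rw [h5] at h6
      have h7 := hreal y1 (mem_ball_self hr)
      simp only [Complex.add_im, Complex.mul_im, Complex.ofReal_re, Complex.ofReal_im,
        Complex.I_re, Complex.I_im, mul_one, mul_zero, add_zero, h7, zero_add] at h6
      linarith
  obtain ⟨κ, hκ⟩ := hconst
  refine ⟨κ, ?_⟩
  -- identity theorem
  have hTpre : IsPreconnected Tᶜ :=
    (hTfin.countable.isConnected_compl_of_one_lt_rank (by
      rw [Complex.rank_real_complex]; norm_num)).isPreconnected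
  have hmemT : ∀ y, y ∈ Tᶜ ↔ (∀ i, y ≠ b i) ∧ (∀ i, om n * y ≠ b i) := by
    intro y
    simp only [hT, mem_compl_iff, mem_union, mem_preimage, mem_range, not_or, not_exists]
    constructor
    · rintro ⟨h1, h2⟩
      exact ⟨fun i h => h1 i h.symm, fun i h => h2 i h.symm⟩
    · rintro ⟨h1, h2⟩
      exact ⟨fun i h => h1 i h.symm, fun i h => h2 i h.symm⟩
  have hF1 : AnalyticOnNhd ℂ (fun y => om n ^ 2 * BB b g (om n * y)) Tᶜ := by
    refine DifferentiableOn.analyticOnNhd ?_ hTc.isOpen_compl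
    intro y hy
    exact (RAT_diff' ((hmemT y).mp hy).2).differentiableWithinAt
  have hF2 : AnalyticOnNhd ℂ (fun y => κ * BB b g y) Tᶜ := by
    refine DifferentiableOn.analyticOnNhd ?_ hTc.isOpen_compl
    intro y hy
    exact ((RAT_diff ((hmemT y).mp hy).1).const_mul κ).differentiableWithinAt
  have hy1T : y1 ∈ Tᶜ := by
    obtain ⟨h1, h2, -⟩ := hVb y1 (mem_ball_self hr)
    exact (hmemT y1).mpr ⟨h1, h2⟩
  have hev : (fun y => om n ^ 2 * BB b g (om n * y)) =ᶠ[𝓝 y1] (fun y => κ * BB b g y) := by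
    filter_upwards [ball_mem_nhds y1 hr] with y hy
    have h1 := hκ y hy
    obtain ⟨-, -, -, h4, -, -⟩ := hVb y hy
    rw [← h1, hq]
    field_simp
  have hfin := hF1.eqOn_of_preconnected_of_eventuallyEq hF2 hTpre hy1T hev
  intro y h1 h2
  exact hfin ((hmemT y).mpr ⟨h1, h2⟩)

end NLF
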